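import Pool.Agent.Helper51.Univ.Rec

/-!
# The flux inequality
-/

open MeasureTheory Set Metric Filter Topology
open scoped ENNReal NNReal Pointwise RealInnerProductSpace

set_option linter.unusedSectionVars false

namespace Pool.Agent.Helper66.MU

open Pool.Agent.Helper51.Univ

variable {E : Type*} [NormedAddCommGroup E] [InnerProductSpace ℝ E] [FiniteDimensional ℝ E]
  [MeasurableSpace E] [BorelSpace E]

/-- The trapezoid function. -/
noncomputable def trap (η t : ℝ) : ℝ := min 1 (max 0 ((1 - t) / η))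

lemma trap_nonneg (η t : ℝ) : 0 ≤ trap η t := le_min zero_le_one (le_max_left _ _)

lemma trap_le_one (η t : ℝ) : trap η t ≤ 1 := min_le_left _ _

lemma trap_eq_one {η t : ℝ} (hη : 0 < η) (h : t ≤ 1 - η) : trap η t = 1 := by
  have h1 : 1 ≤ (1 - t) / η := by rw [le_div_iff₀ hη]; linarith
  rw [trap, max_eq_right (by linarith), min_eq_left h1]

lemma trap_eq_zero {η t : ℝ} (hη : 0 < η) (h : 1 ≤ t) : trap η t = 0 := by
  have h1 : (1 - t) / η ≤ 0 := div_nonpos_of_nonpos_of_nonneg (by linarith) hη.le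
  rw [trap, max_eq_left h1, min_eq_right zero_le_one]

lemma trap_anti {η : ℝ} (hη : 0 < η) {s t : ℝ} (h : s ≤ t) : trap η t ≤ trap η s := by
  unfold trap
  gcongr

lemma trap_shift {η : ℝ} (hη : 0 < η) (a : ℝ) {t : ℝ} (ht : 0 ≤ t) :
    trap η a - t / η ≤ trap η (a + t) := by
  have h0 : 0 ≤ t / η := by positivity
  have h1 : (1 - (a + t)) / η = (1 - a) / η - t / η := by ring
  unfold trap
  rw [h1]
  rcases le_total 0 ((1 - a) / η) with h2 | h2
  · rw [max_eq_right h2]
    rcases le_total 1 ((1 - a) / η) with h3 | h3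
    · rw [min_eq_left h3]
      refine le_min (by linarith) (le_trans ?_ (le_max_right _ _))
      linarith
    · rw [min_eq_right h3]
      exact le_min (by linarith) (le_max_right _ _)
  · rw [max_eq_left h2, min_eq_right zero_le_one]
    exact le_min (by linarith) (le_trans (by linarith) (le_max_left _ _))

lemma trap_lip {η : ℝ} (hη : 0 < η) : LipschitzWith (Real.toNNReal η⁻¹) (trap η) := by
  have h1 : LipschitzWith (Real.toNNReal η⁻¹) (fun t : ℝ => (1 - t) / η) := by
    refine LipschitzWith.of_dist_le_mul fun s t => ?_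
    rw [Real.dist_eq, Real.dist_eq, Real.coe_toNNReal _ (by positivity)]
    have : (1 - s) / η - (1 - t) / η = η⁻¹ * (t - s) := by ring
    rw [this, abs_mul, abs_of_pos (inv_pos.2 hη), abs_sub_comm]
  exact (h1.const_max 0).const_min 1

/-- The clamp function. -/
noncomputable def clp (δ t : ℝ) : ℝ := max (-1) (min 1 (t / δ))

lemma abs_clp_le (δ t : ℝ) : |clp δ t| ≤ 1 :=
  abs_le.2 ⟨le_max_left _ _, max_le (by norm_num) (min_le_left _ _)⟩

lemma clp_mono {δ : ℝ} (hδ : 0 < δ) : Monotone (clp δ) := by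
  intro s t h
  unfold clp
  gcongr

lemma clp_eq {δ t : ℝ} (hδ : 0 < δ) (h : |t| < δ) : clp δ t = t / δ := by
  obtain ⟨h1, h2⟩ := abs_lt.1 h
  have h3 : t / δ ≤ 1 := by rw [div_le_one hδ]; exact h2.le
  have h4 : -1 ≤ t / δ := by rw [le_div_iff₀ hδ]; linarith
  rw [clp, min_eq_right h3, max_eq_right h4]

lemma clp_lip {δ : ℝ} (hδ : 0 < δ) : LipschitzWith (Real.toNNReal δ⁻¹) (clp δ) := by
  have h1 : LipschitzWith (Real.toNNReal δ⁻¹) (fun t : ℝ => t / δ) := by
    refine LipschitzWith.of_dist_le_mul fun s t => ?_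
    rw [Real.dist_eq, Real.dist_eq, Real.coe_toNNReal _ (by positivity)]
    have : s / δ - t / δ = δ⁻¹ * (s - t) := by ring
    rw [this, abs_mul, abs_of_pos (inv_pos.2 hδ)]
  exact (h1.const_min 1).const_max (-1)

/-- The smoothed sign of a linear functional. -/
noncomputable def sg (δ : ℝ) (θ z : E) : ℝ := clp δ ⟪z, θ⟫

lemma sg_lip {δ : ℝ} (hδ : 0 < δ) (θ : E) : ∃ C : ℝ≥0, LipschitzWith C (sg δ θ) := by
  have h : sg δ θ = clp δ ∘ (innerSL ℝ θ) := by
    funext z
    simp only [sg, Function.comp_apply, innerSL_apply_apply]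
    rw [real_inner_comm]
  rw [h]
  exact ⟨_, (clp_lip hδ).comp (innerSL ℝ θ).lipschitz⟩

lemma lineDeriv_sg {δ : ℝ} (hδ : 0 < δ) {θ w : E} (hτ : 0 ≤ ⟪w, θ⟫) (z : E) :
    {x : E | |⟪x, θ⟫| < δ}.indicator (fun _ => ⟪w, θ⟫ / δ) z ≤ lineDeriv ℝ (sg δ θ) z w := by
  have hline : ∀ t : ℝ, sg δ θ (z + t • w) = clp δ (⟪z, θ⟫ + t * ⟪w, θ⟫) := fun t => by
    rw [sg, inner_add_left, inner_smul_left]; simp
  by_cases hz : z ∈ {x : E | |⟪x, θ⟫| < δ}
  · rw [indicator_of_mem hz]
    have hz' : |⟪z, θ⟫| < δ := hz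
    have h1 : HasLineDerivAt ℝ (sg δ θ) (⟪w, θ⟫ / δ) z w := by
      rw [HasLineDerivAt]
      have h2 : HasDerivAt (fun t : ℝ => (⟪z, θ⟫ + t * ⟪w, θ⟫) / δ) (⟪w, θ⟫ / δ) 0 := by
        have := (((hasDerivAt_id (0 : ℝ)).mul_const ⟪w, θ⟫).const_add ⟪z, θ⟫).div_const δ
        simpa using this
      refine h2.congr_of_eventuallyEq ?_
      have h3 : ∀ᶠ t : ℝ in 𝓝 0, |⟪z, θ⟫ + t * ⟪w, θ⟫| < δ := by
        have hc : Continuous fun t : ℝ => |⟪z, θ⟫ + t * ⟪w, θ⟫| := by fun_prop
        have := hc.tendsto 0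
        simp only [zero_mul, add_zero] at this
        exact this.eventually_lt_const hz'
      filter_upwards [h3] with t ht
      rw [hline, clp_eq hδ ht]
    rw [h1.lineDeriv]
  · rw [indicator_of_notMem hz]
    have hm : Monotone fun t : ℝ => sg δ θ (z + t • w) := by
      intro s t hst
      simp only [hline]
      apply clp_mono hδ
      gcongr
    rw [lineDeriv]
    exact hm.deriv_nonneg

/-- The cut-off function of the body. -/
noncomputable def phi (K : Set E) (η : ℝ) (z : E) : ℝ := trap η (gauge K z)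

lemma phi_lip {K : Set E} (hK : Body K) {η : ℝ} (hη : 0 < η) :
    ∃ C : ℝ≥0, LipschitzWith C (phi K η) := by
  obtain ⟨C, hC⟩ := hK.conv.lipschitz_gauge hK.nhds
  exact ⟨_, (trap_lip hη).comp hC⟩

lemma phi_zero {K : Set E} (hK : Body K) {η : ℝ} (hη : 0 < η) {z : E} (hz : z ∉ K) :
    phi K η z = 0 := by
  refine trap_eq_zero hη ?_
  by_contra h
  push Not at h
  exact hz (setOfPred_gauge_lt_one_subset_self hK.conv hK.zero_mem
    (absorbent_nhds_zero hK.nhds) h)

lemma phi_supp {K : Set E} (hK : Body K) {η : ℝ} (hη : 0 < η) : HasCompactSupport (phi K η) :=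
  HasCompactSupport.intro hK.comp fun _ hz => phi_zero hK hη hz

/-- The shell of the body. -/
def shell (K : Set E) (η : ℝ) : Set E := {z | 1 - η ≤ gauge K z ∧ gauge K z ≤ 1}

lemma isClosed_shell {K : Set E} (hK : Body K) (η : ℝ) : IsClosed (shell K η) := by
  have hc := continuous_gauge hK.conv hK.nhds
  exact (isClosed_le continuous_const hc).inter (isClosed_le hc continuous_const)

lemma shell_sub {K : Set E} (hK : Body K) (η : ℝ) : shell K η ⊆ K := by
  intro z hz
  have := (gauge_le_one_iff_mem_closure hK.conv hK.nhds).1 hz.2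
  rwa [hK.comp.isClosed.closure_eq] at this

lemma phi_deriv {K : Set E} (hK : Body K) {η : ℝ} (hη : 0 < η) {z v : E} (hv : v ∈ K)
    (hz : DifferentiableAt ℝ (phi K η) z) :
    lineDeriv ℝ (phi K η) z (-v) ≤ (shell K η).indicator (fun _ => η⁻¹) z := by
  have hc := continuous_gauge hK.conv hK.nhds
  by_cases h : z ∈ shell K η
  · rw [indicator_of_mem h]
    have h0 : lineDeriv ℝ (phi K η) z (-v) = - lineDeriv ℝ (phi K η) z v := by
      rw [hz.lineDeriv_eq_fderiv, hz.lineDeriv_eq_fderiv, map_neg]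
    rw [h0, neg_le]
    have h1 : HasLineDerivAt ℝ (phi K η) (lineDeriv ℝ (phi K η) z v) z v :=
      (hz.lineDifferentiableAt).hasLineDerivAt
    refine ge_of_tendsto h1.tendsto_slope_zero_right ?_
    filter_upwards [self_mem_nhdsWithin] with t ht
    have ht' : (0 : ℝ) < t := ht
    have h2 : gauge K (z + t • v) ≤ gauge K z + t := by
      refine (gauge_add_le hK.conv (absorbent_nhds_zero hK.nhds) _ _).trans ?_
      rw [gauge_smul_of_nonneg ht'.le, smul_eq_mul]
      have := gauge_le_one_of_mem hv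
      nlinarith
    have h3 : phi K η z - t / η ≤ phi K η (z + t • v) :=
      (trap_shift hη _ ht'.le).trans (trap_anti hη h2)
    rw [smul_eq_mul, ← sub_nonneg]
    have h4 : t⁻¹ * (phi K η (z + t • v) - phi K η z) - -η⁻¹ =
      t⁻¹ * (phi K η (z + t • v) - (phi K η z - t / η)) := by field_simp; ring
    rw [h4]
    exact mul_nonneg (inv_nonneg.2 ht'.le) (by linarith)
  · rw [indicator_of_notMem h]
    have h5 : gauge K z < 1 - η ∨ 1 < gauge K z := by
      by_contra h6
      push Not at h6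
      exact h h6
    have h6 : ∃ c : ℝ, phi K η =ᶠ[𝓝 z] fun _ => c := by
      rcases h5 with h5 | h5
      · refine ⟨1, ?_⟩
        filter_upwards [(isOpen_lt hc continuous_const).mem_nhds h5] with y hy
        exact trap_eq_one hη (le_of_lt hy)
      · refine ⟨0, ?_⟩
        filter_upwards [(isOpen_lt continuous_const hc).mem_nhds h5] with y hy
        exact trap_eq_zero hη (le_of_lt hy)
    obtain ⟨c, hc'⟩ := h6
    rw [hz.lineDeriv_eq_fderiv, hc'.fderiv_eq]
    simp

lemma vol_shell {K : Set E} (hK : Body K) {η : ℝ} (hη : 0 < η) (hη1 : η < 1) :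
    (volume (shell K η)).toReal ≤ Module.finrank ℝ E * η * (volume K).toReal := by
  set n := Module.finrank ℝ E with hn
  have hKfin : volume K ≠ ∞ := hK.comp.measure_lt_top.ne
  have key : ∀ η' : ℝ, η < η' → η' < 1 →
      (volume (shell K η)).toReal ≤ n * η' * (volume K).toReal := by
    intro η' h1 h2
    have h0 : 0 ≤ 1 - η' := by linarith
    have hsub : (1 - η') • K ⊆ K := by
      rintro _ ⟨x, hx, rfl⟩
      have := hK.conv hx hK.zero_mem h0 (by linarith : 0 ≤ η') (by ring)
      simpa using this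
    have h3 : shell K η ⊆ K \ ((1 - η') • K) := by
      intro z hz
      refine ⟨shell_sub hK η hz, fun h4 => ?_⟩
      have h5 := gauge_le_of_mem h0 h4
      have h6 := hz.1
      linarith
    have h4 : volume ((1 - η') • K) = ENNReal.ofReal ((1 - η') ^ n) * volume K :=
      Measure.addHaar_smul_of_nonneg _ h0 _
    have hm : MeasurableSet ((1 - η') • K) := (hK.comp.smul (1 - η')).measurableSet
    have h5 : (volume (shell K η)).toReal ≤ (volume (K \ ((1 - η') • K))).toReal :=
      ENNReal.toReal_mono ((measure_mono sdiff_subset).trans_lt hKfin.lt_top).ne (measure_mono h3)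
    have h6 : (volume (K \ ((1 - η') • K))).toReal =
        (volume K).toReal - (1 - η') ^ n * (volume K).toReal := by
      rw [measure_sdiff hsub hm.nullMeasurableSet
        ((measure_mono hsub).trans_lt hKfin.lt_top).ne, h4, ENNReal.toReal_sub_of_le _ hKfin,
        ENNReal.toReal_mul, ENNReal.toReal_ofReal (by positivity)]
      rw [← h4]
      exact measure_mono hsub
    rw [h6] at h5
    have h7 : 1 - n * η' ≤ (1 - η') ^ n := by
      have := one_add_mul_le_pow (a := -η') (by linarith) n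
      have e1 : 1 + -η' = 1 - η' := by ring
      rw [e1] at this
      linarith
    have h8 : 0 ≤ (volume K).toReal := ENNReal.toReal_nonneg
    nlinarith
  have hlim : Tendsto (fun η' : ℝ => (n : ℝ) * η' * (volume K).toReal) (𝓝[>] η)
      (𝓝 ((n : ℝ) * η * (volume K).toReal)) := by
    apply Tendsto.mono_left _ nhdsWithin_le_nhds
    apply Continuous.tendsto
    fun_prop
  exact ge_of_tendsto hlim (Filter.eventually_of_mem (Ioo_mem_nhdsGT hη1)
    fun t ht => key t ht.1 ht.2)

/-- The flux inequality for slabs. -/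
theorem flux_slab {ι : Type*} {K : Set E} (hK : Body K) (S : Finset ι) (w θ : ι → E) (c : ι → ℝ)
    (hc : ∀ i ∈ S, 0 ≤ c i) (hτ : ∀ i ∈ S, 0 ≤ ⟪w i, θ i⟫)
    (hmem : ∀ s : ι → ℝ, (∀ i, |s i| ≤ 1) → ∑ i ∈ S, (s i * c i) • w i ∈ K)
    {η δ : ℝ} (hη : 0 < η) (hη1 : η < 1) (hδ : 0 < δ) :
    ∑ i ∈ S, c i * (⟪w i, θ i⟫ / δ) * (volume (slab ((1 - η) • K) δ (θ i))).toReal ≤
      Module.finrank ℝ E * (volume K).toReal := by
  set n := Module.finrank ℝ E with hn
  have hKfin : volume K ≠ ∞ := hK.comp.measure_lt_top.ne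
  obtain ⟨C, hC⟩ := phi_lip hK hη
  have hsupp := phi_supp hK hη
  have hφint : Integrable (phi K η) := hC.continuous.integrable_of_hasCompactSupport hsupp
  have hsubK : (1 - η) • K ⊆ K := by
    rintro _ ⟨x, hx, rfl⟩
    have := hK.conv hx hK.zero_mem (by linarith : 0 ≤ 1 - η) hη.le (by ring)
    simpa using this
  have hm1 : MeasurableSet ((1 - η) • K) := (hK.comp.smul (1 - η)).measurableSet
  -- integrability of the derivative term
  have hint : ∀ i, Integrable fun z => lineDeriv ℝ (phi K η) z (-(w i)) * sg δ (θ i) z := by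
    intro i
    obtain ⟨D, hD⟩ := sg_lip hδ (θ i)
    have h1 : Function.support (fun z => lineDeriv ℝ (phi K η) z (-(w i)) * sg δ (θ i) z) ⊆ K := by
      intro z hz
      by_contra h
      apply hz
      have h2 : phi K η =ᶠ[𝓝 z] fun _ => 0 := by
        filter_upwards [hK.comp.isClosed.isOpen_compl.mem_nhds h] with y hy
        exact phi_zero hK hη hy
      have h3 : lineDeriv ℝ (phi K η) z (-(w i)) = 0 := by
        rw [h2.lineDeriv_eq]
        simp [lineDeriv]
      simp [h3]
    rw [← integrableOn_iff_integrable_of_support_subset h1]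
    refine Measure.integrableOn_of_bounded (M := C * ‖-(w i)‖) hKfin ?_ ?_
    · exact (aestronglyMeasurable_lineDeriv hC.continuous volume).mul
        hD.continuous.aestronglyMeasurable
    · refine Filter.Eventually.of_forall fun z => ?_
      rw [norm_mul]
      have h4 := norm_lineDeriv_le_of_lipschitz ℝ hC (x₀ := z) (v := -(w i))
      have h5 : ‖sg δ (θ i) z‖ ≤ 1 := abs_clp_le _ _
      calc _ ≤ C * ‖-(w i)‖ * 1 := by gcongr
        _ = _ := mul_one _
  -- lower bound of each term
  have hlow : ∀ i ∈ S, ⟪w i, θ i⟫ / δ * (volume (slab ((1 - η) • K) δ (θ i))).toReal ≤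
      ∫ z, lineDeriv ℝ (phi K η) z (-(w i)) * sg δ (θ i) z := by
    intro i hi
    obtain ⟨D, hD⟩ := sg_lip hδ (θ i)
    rw [← LipschitzWith.integral_lineDeriv_mul_eq hD hC hsupp (w i)]
    have hsm : MeasurableSet (slab ((1 - η) • K) δ (θ i)) := measurableSet_slab hm1 δ (θ i)
    have hfin : volume (slab ((1 - η) • K) δ (θ i)) ≠ ∞ :=
      ((measure_mono (fun x hx => hsubK hx.1)).trans_lt hKfin.lt_top).ne
    have h1 : ⟪w i, θ i⟫ / δ * (volume (slab ((1 - η) • K) δ (θ i))).toReal =
        ∫ z, (slab ((1 - η) • K) δ (θ i)).indicator (fun _ => ⟪w i, θ i⟫ / δ) z := by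
      rw [integral_indicator hsm, setIntegral_const, smul_eq_mul, mul_comm]
      rfl
    rw [h1]
    refine integral_mono ?_ ?_ fun z => ?_
    · exact (integrableOn_const hfin).integrable_indicator hsm
    · have h2 : Integrable fun z => lineDeriv ℝ (sg δ (θ i)) z (w i) * phi K η z := by
        refine hφint.bdd_mul (c := D * ‖w i‖)
          (aestronglyMeasurable_lineDeriv hD.continuous volume) ?_
        exact Filter.Eventually.of_forall fun z => norm_lineDeriv_le_of_lipschitz ℝ hD
      exact h2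
    · have h3 := lineDeriv_sg hδ (hτ i hi) z
      have h4 : 0 ≤ {x : E | |⟪x, θ i⟫| < δ}.indicator (fun _ => ⟪w i, θ i⟫ / δ) z :=
        indicator_nonneg (fun _ _ => div_nonneg (hτ i hi) hδ.le) z
      by_cases hz : z ∈ slab ((1 - η) • K) δ (θ i)
      · rw [indicator_of_mem hz]
        rw [indicator_of_mem (show z ∈ {x : E | |⟪x, θ i⟫| < δ} from hz.2)] at h3
        have h5 : phi K η z = 1 := trap_eq_one hη (gauge_le_of_mem (by linarith) hz.1)
        simpa [h5] using h3
      · rw [indicator_of_notMem hz]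
        exact mul_nonneg (h4.trans h3) (trap_nonneg _ _)
  have hsum : ∑ i ∈ S, c i * (⟪w i, θ i⟫ / δ) * (volume (slab ((1 - η) • K) δ (θ i))).toReal ≤
      ∫ z, ∑ i ∈ S, c i * (lineDeriv ℝ (phi K η) z (-(w i)) * sg δ (θ i) z) := by
    rw [integral_finsetSum _ fun i _ => (hint i).const_mul _]
    refine Finset.sum_le_sum fun i hi => ?_
    rw [integral_const_mul, mul_assoc]
    exact mul_le_mul_of_nonneg_left (hlow i hi) (hc i hi)
  refine hsum.trans ?_
  have hshm : MeasurableSet (shell K η) := (isClosed_shell hK η).measurableSet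
  have hshfin : volume (shell K η) ≠ ∞ :=
    ((measure_mono (shell_sub hK η)).trans_lt hKfin.lt_top).ne
  have hup : ∫ z, ∑ i ∈ S, c i * (lineDeriv ℝ (phi K η) z (-(w i)) * sg δ (θ i) z) ≤
      ∫ z, (shell K η).indicator (fun _ => η⁻¹) z := by
    refine integral_mono_ae ?_ ?_ ?_
    · exact integrable_finsetSum _ fun i _ => (hint i).const_mul _
    · exact (integrableOn_const hshfin).integrable_indicator hshm
    · filter_upwards [hC.ae_differentiableAt (μ := volume)] with z hz
      have h1 := phi_deriv hK hη (hmem (fun i => sg δ (θ i) z) fun i => abs_clp_le _ _) hz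
      refine le_trans (le_of_eq ?_) h1
      rw [hz.lineDeriv_eq_fderiv, map_neg, map_sum, ← Finset.sum_neg_distrib]
      refine Finset.sum_congr rfl fun i _ => ?_
      rw [hz.lineDeriv_eq_fderiv, map_neg, map_smul, smul_eq_mul]
      ring
  refine hup.trans ?_
  rw [integral_indicator hshm, setIntegral_const, smul_eq_mul]
  have h1 := vol_shell hK hη hη1
  have h2 : (volume : Measure E).real (shell K η) = (volume (shell K η)).toReal := rfl
  rw [h2, ← div_eq_mul_inv, div_le_iff₀ hη]
  refine h1.trans (le_of_eq ?_)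
  ring

end Pool.Agent.Helper66.MU
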