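import Pool.Agent.Helper66.MU.RepStep

/-!
# General integral representations, heredity, induction
-/

open MeasureTheory Set Metric Filter Topology
open scoped ENNReal NNReal Pointwise RealInnerProductSpace

set_option linter.unusedSectionVars false

namespace Pool.Agent.Helper66.MU

open Pool.Agent.Helper51.Univ

universe v

section
variable {E : Type*} [NormedAddCommGroup E] [InnerProductSpace ℝ E] [FiniteDimensional ℝ E]
  [MeasurableSpace E] [BorelSpace E] {K : Set E}

/-- A general integral representation of the identity. -/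
structure Gen {Ω : Type*} [MeasurableSpace Ω] (K : Set E) (μ : Measure Ω) (w θ : Ω → E) :
    Prop where
  mw : Measurable w
  mθ : Measurable θ
  id : ∀ x y : E, ∫ ω, ⟪x, θ ω⟫ * ⟪w ω, y⟫ ∂μ = ⟪x, y⟫
  unc : ∀ x ∈ K, ∀ y ∈ pol K, ∫⁻ ω, ‖⟪x, θ ω⟫ * ⟪w ω, y⟫‖ₑ ∂μ ≤ 1

variable {Ω : Type*} [MeasurableSpace Ω] {μ : Measure Ω} {w θ : Ω → E}

lemma Gen.integrable (h : Gen K μ w θ) (hK : Body K) (x y : E) :
    Integrable (fun ω => ⟪x, θ ω⟫ * ⟪w ω, y⟫) μ := by
  have hmw := h.mw
  have hmθ := h.mθ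
  obtain ⟨r, hr0, hr⟩ := nhds_basis_closedBall.mem_iff.1 hK.nhds
  obtain ⟨r', hr0', hr'⟩ := nhds_basis_closedBall.mem_iff.1 hK.pol.nhds
  set a := r / (‖x‖ + 1) with ha
  set b := r' / (‖y‖ + 1) with hb
  have ha0 : 0 < a := by positivity
  have hb0 : 0 < b := by positivity
  have hx : a • x ∈ K := by
    apply hr
    rw [mem_closedBall_zero_iff, norm_smul, Real.norm_eq_abs, abs_of_pos ha0, ha, div_mul_eq_mul_div,
      div_le_iff₀ (by positivity)]
    nlinarith [norm_nonneg x]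
  have hy : b • y ∈ pol K := by
    apply hr'
    rw [mem_closedBall_zero_iff, norm_smul, Real.norm_eq_abs, abs_of_pos hb0, hb, div_mul_eq_mul_div,
      div_le_iff₀ (by positivity)]
    nlinarith [norm_nonneg y]
  have h1 := h.unc _ hx _ hy
  have h2 : Integrable (fun ω => ⟪a • x, θ ω⟫ * ⟪w ω, b • y⟫) μ := by
    refine ⟨Measurable.aestronglyMeasurable (by fun_prop), ?_⟩
    exact lt_of_le_of_lt h1 ENNReal.one_lt_top
  have h3 := h2.const_mul ((a * b)⁻¹)
  refine h3.congr (Filter.Eventually.of_forall fun ω => ?_)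
  simp only [inner_smul_left, inner_smul_right, conj_trivial]
  field_simp

lemma norm_le_sum_inner (b : OrthonormalBasis (Fin (Module.finrank ℝ E)) ℝ E) (x : E) :
    ‖x‖ ≤ ∑ k, |⟪b k, x⟫| := by
  conv_lhs => rw [← b.sum_repr' x]
  refine (norm_sum_le _ _).trans (Finset.sum_le_sum fun k _ => ?_)
  rw [norm_smul, b.norm_eq_one, mul_one, Real.norm_eq_abs]

lemma Gen.integrable_norm (h : Gen K μ w θ) (hK : Body K) :
    Integrable (fun ω => ‖w ω‖ * ‖θ ω‖) μ := by
  have hmw := h.mw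
  have hmθ := h.mθ
  set b := stdOrthonormalBasis ℝ E
  have h1 : Integrable (fun ω => ∑ k, ∑ l, |⟪b k, θ ω⟫ * ⟪w ω, b l⟫|) μ :=
    integrable_finsetSum _ fun k _ => integrable_finsetSum _ fun l _ =>
      (h.integrable hK (b k) (b l)).abs
  refine h1.mono' (Measurable.aestronglyMeasurable (by fun_prop))
    (Filter.Eventually.of_forall fun ω => ?_)
  rw [Real.norm_eq_abs, abs_of_nonneg (by positivity)]
  calc ‖w ω‖ * ‖θ ω‖ ≤ (∑ l, |⟪b l, w ω⟫|) * ∑ k, |⟪b k, θ ω⟫| := by
        gcongr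
        · exact norm_le_sum_inner b _
        · exact norm_le_sum_inner b _
    _ = ∑ k, ∑ l, |⟪b k, θ ω⟫ * ⟪w ω, b l⟫| := by
        rw [mul_comm, Finset.sum_mul_sum]
        refine Finset.sum_congr rfl fun k _ => Finset.sum_congr rfl fun l _ => ?_
        rw [abs_mul, real_inner_comm (b l) (w ω)]

/-- The normalised representation. -/
theorem Gen.rep (h : Gen K μ w θ) (hK : Body K) : ∃ ν : Measure (E × E), Rep K ν := by
  have hmw := h.mw
  have hmθ := h.mθ
  have hint := h.integrable_norm hK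
  set ρ : Ω → ℝ≥0∞ := fun ω => ENNReal.ofReal (‖w ω‖ * ‖θ ω‖) with hρ
  have hρm : Measurable ρ := by fun_prop
  set T : Ω → E × E := fun ω => (‖w ω‖⁻¹ • w ω, ‖θ ω‖⁻¹ • θ ω) with hT
  have hTm : Measurable T := by fun_prop
  have hfin : IsFiniteMeasure (μ.withDensity ρ) := isFiniteMeasure_withDensity_ofReal hint.2
  have hnm : ∀ z : E, ‖z‖ * ‖z‖⁻¹ * 1 = 1 ∨ z = 0 := by
    intro z
    by_cases hz : z = 0
    · exact Or.inr hz
    · left
      rw [mul_inv_cancel₀ (norm_ne_zero_iff.2 hz), one_mul]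
  have hval : ∀ x y : E, ∀ ω, (ρ ω).toReal * (⟪x, (T ω).2⟫ * ⟪(T ω).1, y⟫) =
      ⟪x, θ ω⟫ * ⟪w ω, y⟫ := by
    intro x y ω
    rw [hρ, hT]
    simp only
    rw [ENNReal.toReal_ofReal (by positivity), inner_smul_left, inner_smul_right]
    simp only [conj_trivial]
    by_cases hw : w ω = 0
    · simp [hw]
    · by_cases hθ : θ ω = 0
      · simp [hθ]
      · have h1 := norm_ne_zero_iff.2 hw
        have h2 := norm_ne_zero_iff.2 hθ
        field_simp
  have hmap : ∀ F : E × E → ℝ, Measurable F →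
      ∫ p, F p ∂(Measure.map T (μ.withDensity ρ)) = ∫ ω, (ρ ω).toReal * F (T ω) ∂μ := by
    intro F hF
    rw [integral_map hTm.aemeasurable hF.aestronglyMeasurable,
      integral_withDensity_eq_integral_toReal_smul hρm
        (Filter.Eventually.of_forall fun ω => ENNReal.ofReal_lt_top)]
    rfl
  refine ⟨Measure.map T (μ.withDensity ρ), ?_, ?_, ?_, ?_⟩
  · exact Measure.isFiniteMeasure_map _ _
  · have hms : MeasurableSet {p : E × E | ‖p.1‖ = 1 ∧ ‖p.2‖ = 1} := by
      have h1 : MeasurableSet {p : E × E | ‖p.1‖ = 1} :=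
        measurableSet_eq_fun (by fun_prop) (by fun_prop)
      have h2 : MeasurableSet {p : E × E | ‖p.2‖ = 1} :=
        measurableSet_eq_fun (by fun_prop) (by fun_prop)
      exact h1.inter h2
    rw [ae_map_iff hTm.aemeasurable hms, ae_withDensity_iff hρm]
    refine Filter.Eventually.of_forall fun ω hω => ?_
    have h1 : ¬ w ω = 0 ∧ ¬ θ ω = 0 := by
      rw [hρ] at hω
      simpa using hω
    have h2 : ‖w ω‖ ≠ 0 := norm_ne_zero_iff.2 h1.1
    have h3 : ‖θ ω‖ ≠ 0 := norm_ne_zero_iff.2 h1.2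
    simp only [hT, norm_smul, norm_inv, norm_norm]
    exact ⟨inv_mul_cancel₀ h2, inv_mul_cancel₀ h3⟩
  · intro x y
    rw [hmap _ (by fun_prop)]
    simp only [hval]
    exact h.id x y
  · intro x hx y hy
    rw [hmap _ (by fun_prop)]
    have h1 : ∀ ω, (ρ ω).toReal * |⟪x, (T ω).2⟫ * ⟪(T ω).1, y⟫| = ‖⟪x, θ ω⟫ * ⟪w ω, y⟫‖ := by
      intro ω
      rw [Real.norm_eq_abs, ← hval x y ω, abs_mul (ρ ω).toReal,
        abs_of_nonneg ENNReal.toReal_nonneg]
    simp only [h1]
    rw [integral_norm_eq_lintegral_enorm (Measurable.aestronglyMeasurable (by fun_prop))]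
    exact ENNReal.toReal_le_of_le_ofReal zero_le_one (by simpa using h.unc x hx y hy)

variable {ν : Measure (E × E)}

lemma Rep.integrable (h : Rep K ν) (x y : E) :
    Integrable (fun p : E × E => ⟪x, p.2⟫ * ⟪p.1, y⟫) ν :=
  integrable_of_bdd h (by fun_prop) (abs_prod_le x y)

/-- Heredity. -/
theorem Rep.heredity (h : Rep K ν) (hK : Body K) {q : E × E} (hq : q ∈ good ν)
    (hτ : 0 < ⟪q.1, q.2⟫) : ∃ ν' : Measure (Hy q.2 × Hy q.2), Rep (sec q.2 K) ν' := by
  set τ := ⟪q.1, q.2⟫ with hτ'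
  have hmem : ∀ x : E, x - (⟪x, q.2⟫ / τ) • q.1 ∈ Hy q.2 := by
    intro x
    rw [Submodule.mem_orthogonal_singleton_iff_inner_left, inner_sub_left, inner_smul_left, ← hτ']
    simp only [conj_trivial]
    field_simp
    ring
  set w' : E × E → Hy q.2 := fun p => ⟨p.1 - (⟪p.1, q.2⟫ / τ) • q.1, hmem p.1⟩ with hw'
  set θ' : E × E → Hy q.2 := fun p => (Hy q.2).orthogonalProjectionOnto p.2 with hθ'
  have hin1 : ∀ (x : Hy q.2) (p : E × E), ⟪x, θ' p⟫ = ⟪(x : E), p.2⟫ := by
    intro x p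
    rw [hθ']
    simp only
    rw [Submodule.inner_orthogonalProjectionOnto_eq_of_mem_left]
  have hin2 : ∀ (y : Hy q.2) (p : E × E),
      ⟪w' p, y⟫ = ⟪p.1, (y : E) - (⟪q.1, (y : E)⟫ / τ) • q.2⟫ := by
    intro y p
    have e1 : ⟪w' p, y⟫ = ⟪p.1 - (⟪p.1, q.2⟫ / τ) • q.1, (y : E)⟫ := rfl
    rw [e1, inner_sub_left, inner_smul_left, inner_sub_right, inner_smul_right]
    simp only [conj_trivial]
    ring
  have hpol : ∀ y ∈ pol (sec q.2 K), (y : E) - (⟪q.1, (y : E)⟫ / τ) • q.2 ∈ pol K := by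
    intro y hy x hx
    have h1 := hy ⟨x - (⟪x, q.2⟫ / τ) • q.1, hmem x⟩ (h.proj_mem hK hq hτ hx)
    have e1 : ⟪(⟨x - (⟪x, q.2⟫ / τ) • q.1, hmem x⟩ : Hy q.2), y⟫ =
      ⟪x - (⟪x, q.2⟫ / τ) • q.1, (y : E)⟫ := rfl
    rw [e1, inner_sub_left, inner_smul_left] at h1
    rw [inner_sub_right, inner_smul_right]
    simp only [conj_trivial] at h1
    calc _ = ⟪x, (y : E)⟫ - ⟪x, q.2⟫ / τ * ⟪q.1, (y : E)⟫ := by ring
      _ ≤ 1 := h1
  refine Gen.rep (μ := ν) (w := w') (θ := θ') ⟨?_, ?_, ?_, ?_⟩ (hK.sec q.2)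
  · apply Measurable.subtype_mk
    fun_prop
  · exact (ContinuousLinearMap.continuous _).measurable.comp measurable_snd
  · intro x y
    simp only [hin1, hin2]
    rw [h.id, inner_sub_right, inner_smul_right, inner_Hy' x]
    simp
  · intro x hx y hy
    simp only [hin1, hin2]
    have h1 := h.unc (x : E) hx _ (hpol y hy)
    have h2 := h.integrable (x : E) ((y : E) - (⟪q.1, (y : E)⟫ / τ) • q.2)
    rw [← ofReal_integral_norm_eq_lintegral_enorm h2]
    exact ENNReal.ofReal_le_one.2 h1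

end

lemma finrank_Hy' {E : Type*} [NormedAddCommGroup E] [InnerProductSpace ℝ E]
    [FiniteDimensional ℝ E] {q : E} (hq : q ≠ 0) :
    Module.finrank ℝ (Hy q) + 1 = Module.finrank ℝ E := by
  have h := Submodule.finrank_add_finrank_orthogonal (ℝ ∙ q)
  rw [finrank_span_singleton hq] at h
  change Module.finrank ℝ (ℝ ∙ q)ᗮ + 1 = _
  omega

lemma vol_zero_dim {E : Type*} [NormedAddCommGroup E] [InnerProductSpace ℝ E]
    [FiniteDimensional ℝ E] [MeasurableSpace E] [BorelSpace E] {K : Set E}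
    (hE : Module.finrank ℝ E = 0) (hK : Body K) : (volume K).toReal = 1 := by
  have hs : Subsingleton E := Module.finrank_zero_iff.1 hE
  have h1 := (stdOrthonormalBasis ℝ E).volume_parallelepiped
  have h2 : K = parallelepiped (stdOrthonormalBasis ℝ E) := by
    have h3 : K = univ := by
      ext x
      simp only [mem_univ, iff_true]
      rw [Subsingleton.elim x 0]
      exact hK.zero_mem
    have h4 : parallelepiped (stdOrthonormalBasis ℝ E) = univ := by
      ext x
      simp only [mem_univ, iff_true]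
      rw [mem_parallelepiped_iff]
      exact ⟨0, by simp, Subsingleton.elim _ _⟩
    rw [h3, h4]
  rw [h2, h1]
  simp

/-- Mahler's inequality for bodies with a 1-unconditional integral representation. -/
theorem mahler_rep (n : ℕ) : ∀ {E : Type v} [NormedAddCommGroup E] [InnerProductSpace ℝ E]
    [FiniteDimensional ℝ E] [MeasurableSpace E] [BorelSpace E],
    Module.finrank ℝ E = n → ∀ {K : Set E}, Body K → ∀ {ν : Measure (E × E)}, Rep K ν →
    (4 : ℝ) ^ n / n.factorial ≤ VP K := by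
  induction n with
  | zero =>
    intro E _ _ _ _ _ hE K hK ν _
    rw [VP, vol_zero_dim hE hK, vol_zero_dim hE hK.pol]
    simp
  | succ n ih =>
    intro E _ _ _ _ _ hE K hK ν h
    have h1 := h.step hK (M := (4 : ℝ) ^ n / n.factorial) (by positivity) (fun q hq hτ => by
      have hq0 : q.2 ≠ 0 := by
        intro h0
        rw [h0, inner_zero_right] at hτ
        exact lt_irrefl _ hτ
      have hf := finrank_Hy' hq0
      obtain ⟨ν', hν'⟩ := h.heredity hK hq hτ
      exact ih (by omega) (hK.sec q.2) hν')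
    rw [hE] at h1
    have hfac : (0 : ℝ) < n.factorial := by positivity
    have h6 : ((4 : ℝ) ^ (n + 1) / (n + 1).factorial) = 4 * (((n + 1 : ℕ) : ℝ) *
        (4 ^ n / n.factorial)) / ((n + 1 : ℕ) : ℝ) ^ 2 := by
      rw [Nat.factorial_succ]
      push_cast
      field_simp
      ring
    rw [h6, div_le_iff₀ (by positivity)]
    exact h1.trans (le_of_eq (mul_comm _ _))

end Pool.Agent.Helper66.MU
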