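import Pool.Agent.Helper66.MU.Step

/-!
# Integral representations of the identity
-/

open MeasureTheory Set Metric Filter Topology
open scoped ENNReal NNReal Pointwise RealInnerProductSpace

set_option linter.unusedSectionVars false

namespace Pool.Agent.Helper66.MU

open Pool.Agent.Helper51.Univ

/-- Discretisation of a finite measure. -/
lemma disc {X : Type*} [PseudoMetricSpace X] [MeasurableSpace X] [BorelSpace X] (ν : Measure X)
    [IsFiniteMeasure ν] (G : Set X) (hG : ∀ᵐ p ∂ν, p ∈ G) (r : ℝ) (t : Finset X) :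
    ∀ S : Set X, MeasurableSet S → S ⊆ ⋃ x ∈ t, ball x r →
    ∃ (ι : Type) (_ : Fintype ι) (c : ι → ℝ) (p : ι → X), (∀ i, 0 ≤ c i) ∧ (∀ i, p i ∈ G) ∧
      ∀ (F : X → ℝ) (κ : ℝ), Integrable F ν → 0 ≤ κ →
        (∀ a ∈ G, ∀ b ∈ G, dist a b < 2 * r → |F a - F b| ≤ κ) →
        |∑ i, c i * F (p i) - ∫ x in S, F x ∂ν| ≤ κ * (ν S).toReal := by
  classical
  induction t using Finset.induction_on with
  | empty =>
    intro S _ hS
    have hS0 : S = ∅ := by simpa using hS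
    refine ⟨Empty, inferInstance, fun i => i.elim, fun i => i.elim, fun i => i.elim,
      fun i => i.elim, fun F κ _ _ _ => ?_⟩
    simp [hS0]
  | insert x t hx ih =>
    intro S hSm hS
    have hS2 : S \ ball x r ⊆ ⋃ y ∈ t, ball y r := by
      intro z hz
      have := hS hz.1
      simp only [Finset.mem_insert, iUnion_iUnion_eq_or_left, mem_union] at this
      exact this.resolve_left hz.2
    have hbm : MeasurableSet (ball x r) := isOpen_ball.measurableSet
    obtain ⟨ι, hι, c, p, hc, hp, hF⟩ := ih (S \ ball x r) (hSm.diff hbm) hS2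
    have hsplit : ∀ F : X → ℝ, Integrable F ν →
        ∫ z in S, F z ∂ν = (∫ z in S ∩ ball x r, F z ∂ν) + ∫ z in S \ ball x r, F z ∂ν :=
      fun F hFi => (integral_inter_add_sdiff hbm hFi.integrableOn).symm
    have hνsplit : (ν S).toReal = (ν (S ∩ ball x r)).toReal + (ν (S \ ball x r)).toReal := by
      rw [← ENNReal.toReal_add (measure_ne_top _ _) (measure_ne_top _ _),
        measure_inter_add_sdiff S hbm]
    by_cases h0 : ν (S ∩ ball x r) = 0
    · refine ⟨ι, hι, c, p, hc, hp, fun F κ hFi hκ hosc => ?_⟩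
      rw [hsplit F hFi, setIntegral_measure_zero F h0, zero_add, hνsplit, h0]
      simpa using hF F κ hFi hκ hosc
    · obtain ⟨q, hqS, hqG⟩ : ∃ q ∈ S ∩ ball x r, q ∈ G := by
        by_contra hcon
        push Not at hcon
        apply h0
        refine measure_mono_null (fun q hq => ?_) (ae_iff.1 hG)
        exact hcon q hq
      refine ⟨Option ι, inferInstance, fun o => o.elim (ν (S ∩ ball x r)).toReal c,
        fun o => o.elim q p, ?_, ?_, fun F κ hFi hκ hosc => ?_⟩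
      · rintro (_ | i)
        · exact ENNReal.toReal_nonneg
        · exact hc i
      · rintro (_ | i)
        · exact hqG
        · exact hp i
      · rw [hsplit F hFi, Fintype.sum_option, hνsplit]
        simp only [Option.elim_none, Option.elim_some]
        have h1 := hF F κ hFi hκ hosc
        have h2 : |(ν (S ∩ ball x r)).toReal * F q - ∫ z in S ∩ ball x r, F z ∂ν| ≤
            κ * (ν (S ∩ ball x r)).toReal := by
          have h3 : (ν (S ∩ ball x r)).toReal * F q - ∫ z in S ∩ ball x r, F z ∂ν =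
              ∫ z in S ∩ ball x r, (F q - F z) ∂ν := by
            rw [integral_sub (integrable_const _) hFi.integrableOn, setIntegral_const, smul_eq_mul]
            rfl
          rw [h3, ← Real.norm_eq_abs]
          have hfin : ν (S ∩ ball x r) < ∞ := measure_lt_top _ _
          refine norm_setIntegral_le_of_norm_le_const_ae hfin ?_
          refine (ae_restrict_iff' (hSm.inter hbm)).2 ?_
          filter_upwards [hG] with z hzG hz
          rw [Real.norm_eq_abs]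
          refine hosc q hqG z hzG ?_
          calc dist q z ≤ dist q x + dist z x := dist_triangle_right _ _ _
            _ < r + r := add_lt_add hqS.2 hz.2
            _ = 2 * r := by ring
        calc |(ν (S ∩ ball x r)).toReal * F q + ∑ i, c i * F (p i) -
            ((∫ z in S ∩ ball x r, F z ∂ν) + ∫ z in S \ ball x r, F z ∂ν)|
            = |((ν (S ∩ ball x r)).toReal * F q - ∫ z in S ∩ ball x r, F z ∂ν) +
              (∑ i, c i * F (p i) - ∫ z in S \ ball x r, F z ∂ν)| := by congr 1; ring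
          _ ≤ κ * (ν (S ∩ ball x r)).toReal + κ * (ν (S \ ball x r)).toReal :=
            (abs_add_le _ _).trans (add_le_add h2 h1)
          _ = _ := by ring

variable {E : Type*} [NormedAddCommGroup E] [InnerProductSpace ℝ E] [FiniteDimensional ℝ E]
  [MeasurableSpace E] [BorelSpace E]

/-- A normalised integral representation of the identity. -/
structure Rep (K : Set E) (ν : Measure (E × E)) : Prop where
  fin : IsFiniteMeasure ν
  unit : ∀ᵐ p ∂ν, ‖p.1‖ = 1 ∧ ‖p.2‖ = 1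
  id : ∀ x y : E, ∫ p, ⟪x, p.2⟫ * ⟪p.1, y⟫ ∂ν = ⟪x, y⟫
  unc : ∀ x ∈ K, ∀ y ∈ pol K, ∫ p, |⟪x, p.2⟫ * ⟪p.1, y⟫| ∂ν ≤ 1

/-- The support points with unit vectors. -/
def good (ν : Measure (E × E)) : Set (E × E) :=
  {p | ‖p.1‖ = 1 ∧ ‖p.2‖ = 1 ∧ ∀ r : ℝ, 0 < r → ν (ball p r) ≠ 0}

variable {K : Set E} {ν : Measure (E × E)}

lemma Rep.ae_good (h : Rep K ν) : ∀ᵐ p ∂ν, p ∈ good ν := by
  have h1 : ν {p : E × E | ∃ r : ℝ, 0 < r ∧ ν (ball p r) = 0} = 0 := by
    refine measure_null_of_locally_null _ fun p hp => ?_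
    obtain ⟨r, hr, h0⟩ := hp
    exact ⟨ball p r, mem_nhdsWithin_of_mem_nhds (ball_mem_nhds p hr), h0⟩
  have h2 : ∀ᵐ p ∂ν, ¬ ∃ r : ℝ, 0 < r ∧ ν (ball p r) = 0 := by
    rw [ae_iff]
    simpa using h1
  filter_upwards [h2, h.unit] with p hp hu
  refine ⟨hu.1, hu.2, fun r hr h0 => hp ⟨r, hr, h0⟩⟩

lemma integrable_of_bdd (h : Rep K ν) {F : E × E → ℝ} (hF : Measurable F) {M : ℝ}
    (hM : ∀ p : E × E, ‖p.1‖ = 1 → ‖p.2‖ = 1 → |F p| ≤ M) : Integrable F ν := by
  have := h.fin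
  refine Integrable.of_bound hF.aestronglyMeasurable M ?_
  filter_upwards [h.unit] with p hp
  exact hM p hp.1 hp.2

lemma abs_prod_le (x y : E) (p : E × E) (h1 : ‖p.1‖ = 1) (h2 : ‖p.2‖ = 1) :
    |⟪x, p.2⟫ * ⟪p.1, y⟫| ≤ ‖x‖ * ‖y‖ := by
  rw [abs_mul]
  have h3 := abs_real_inner_le_norm x p.2
  have h4 := abs_real_inner_le_norm p.1 y
  rw [h2, mul_one] at h3
  rw [h1, one_mul] at h4
  gcongr

lemma osc_prod (x y : E) (a b : E × E) (ha1 : ‖a.1‖ = 1) (_ha2 : ‖a.2‖ = 1) (_hb1 : ‖b.1‖ = 1)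
    (hb2 : ‖b.2‖ = 1) :
    |⟪x, a.2⟫ * ⟪a.1, y⟫ - ⟪x, b.2⟫ * ⟪b.1, y⟫| ≤ 2 * (‖x‖ * ‖y‖) * dist a b := by
  have h1 : ⟪x, a.2⟫ * ⟪a.1, y⟫ - ⟪x, b.2⟫ * ⟪b.1, y⟫ =
      ⟪x, a.2 - b.2⟫ * ⟪a.1, y⟫ + ⟪x, b.2⟫ * ⟪a.1 - b.1, y⟫ := by
    rw [inner_sub_right, inner_sub_left]; ring
  rw [h1]
  refine (abs_add_le _ _).trans ?_
  rw [abs_mul, abs_mul]
  have h2 := abs_real_inner_le_norm x (a.2 - b.2)
  have h3 := abs_real_inner_le_norm a.1 y
  have h4 := abs_real_inner_le_norm x b.2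
  have h5 := abs_real_inner_le_norm (a.1 - b.1) y
  rw [ha1, one_mul] at h3
  rw [hb2, mul_one] at h4
  have h6 : ‖a.2 - b.2‖ ≤ dist a b := by
    rw [← dist_eq_norm]; exact (le_max_right _ _)
  have h7 : ‖a.1 - b.1‖ ≤ dist a b := by
    rw [← dist_eq_norm]; exact (le_max_left _ _)
  calc |⟪x, a.2 - b.2⟫| * |⟪a.1, y⟫| + |⟪x, b.2⟫| * |⟪a.1 - b.1, y⟫|
      ≤ (‖x‖ * dist a b) * ‖y‖ + ‖x‖ * (dist a b * ‖y‖) := by
        have h8 : |⟪x, a.2 - b.2⟫| ≤ ‖x‖ * dist a b := h2.trans (by gcongr)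
        have h9 : |⟪a.1 - b.1, y⟫| ≤ dist a b * ‖y‖ := h5.trans (by gcongr)
        gcongr
    _ = _ := by ring

/-- The trace. -/
lemma Rep.trace (h : Rep K ν) : ∫ p, ⟪p.1, p.2⟫ ∂ν = (Module.finrank ℝ E : ℝ) := by
  set b := stdOrthonormalBasis ℝ E
  have h1 : ∀ p : E × E, ⟪p.1, p.2⟫ = ∑ k, ⟪b k, p.2⟫ * ⟪p.1, b k⟫ := by
    intro p
    rw [← b.sum_inner_mul_inner p.1 p.2]
    refine Finset.sum_congr rfl fun i _ => mul_comm _ _
  simp only [h1]
  rw [integral_finsetSum]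
  · simp [h.id]
  · intro k _
    exact integrable_of_bdd h (by fun_prop) (abs_prod_le _ _)

lemma Rep.shift_mem (h : Rep K ν) (hK : Body K) {q : E × E} (hq : q ∈ good ν) {R R' : ℝ}
    (hR0 : 0 ≤ R) (hR0' : 0 ≤ R')
    (hR : ∀ x ∈ K, ‖x‖ ≤ R) (hR' : ∀ y ∈ pol K, ‖y‖ ≤ R') {r : ℝ} (hr : 0 < r) {z : E}
    (hz : z ∈ K) {m : ℝ} (hm : m = (ν (ball q r)).toReal) :
    gauge K (z - (m * ⟪z, q.2⟫) • q.1) ≤ 1 + m * (2 * (R * R') * r) := by
  have := h.fin
  obtain ⟨hq1, hq2, hqν⟩ := hq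
  have hm0 : 0 ≤ m := by rw [hm]; exact ENNReal.toReal_nonneg
  set κ := 2 * (R * R') * r with hκ
  have hκ0 : 0 ≤ κ := by positivity
  have hpos : 0 < 1 + m * κ := by positivity
  have hbm : MeasurableSet (ball q r) := isOpen_ball.measurableSet
  refine gauge_le_of_mem hpos.le ?_
  rw [mem_smul_set_iff_inv_smul_mem₀ hpos.ne', ← hK.bipolar]
  intro y hy
  rw [inner_smul_right, inv_mul_le_iff₀ hpos, mul_one, inner_sub_right, inner_smul_right]
  set F : E × E → ℝ := fun p => ⟪z, p.2⟫ * ⟪p.1, y⟫ with hF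
  have hFi : Integrable F ν := integrable_of_bdd h (by fun_prop) (abs_prod_le z y)
  have h1 : ⟪y, z⟫ = (∫ p in ball q r, F p ∂ν) + ∫ p in (ball q r)ᶜ, F p ∂ν := by
    rw [integral_add_compl hbm hFi, real_inner_comm, h.id]
  have h2 : m * ⟪z, q.2⟫ * ⟪y, q.1⟫ = ∫ p in ball q r, F q ∂ν := by
    rw [setIntegral_const, smul_eq_mul, hF, hm, real_inner_comm q.1 y]
    simp only [Measure.real]
    ring
  have h3 : ∫ p in (ball q r)ᶜ, F p ∂ν ≤ 1 := by
    calc ∫ p in (ball q r)ᶜ, F p ∂ν ≤ ∫ p in (ball q r)ᶜ, |F p| ∂ν :=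
          integral_mono hFi.integrableOn hFi.abs.integrableOn fun p => le_abs_self _
      _ ≤ ∫ p, |F p| ∂ν := setIntegral_le_integral hFi.abs
          (Filter.Eventually.of_forall fun p => abs_nonneg _)
      _ ≤ 1 := h.unc z hz y hy
  have h4 : (∫ p in ball q r, F p ∂ν) - ∫ p in ball q r, F q ∂ν ≤ m * κ := by
    rw [← integral_sub hFi.integrableOn (integrable_const _)]
    have h5 : ∫ p in ball q r, (F p - F q) ∂ν ≤ ∫ p in ball q r, κ ∂ν := by
      refine integral_mono_ae (hFi.integrableOn.sub (integrable_const _)) (integrable_const _) ?_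
      refine (ae_restrict_iff' hbm).2 ?_
      filter_upwards [h.unit] with p hp hpb
      have h6 := osc_prod z y p q hp.1 hp.2 hq1 hq2
      have h7 : dist p q ≤ r := le_of_lt hpb
      calc F p - F q ≤ |F p - F q| := le_abs_self _
        _ ≤ 2 * (‖z‖ * ‖y‖) * dist p q := h6
        _ ≤ 2 * (R * R') * r := by
          have := hR z hz
          have := hR' y hy
          gcongr
    refine h5.trans (le_of_eq ?_)
    rw [setIntegral_const, smul_eq_mul, hm]
    rfl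
  linarith

/-- Accretivity at support points. -/
lemma Rep.accr (h : Rep K ν) (hK : Body K) {q : E × E} (hq : q ∈ good ν) (x : E) {l : ℝ}
    (hl : 0 ≤ l) : gauge K x ≤ gauge K (x + (l * ⟪x, q.2⟫) • q.1) := by
  have := h.fin
  obtain ⟨R', hR'⟩ := hK.pol.comp.isBounded.exists_norm_le
  have hR0' : 0 ≤ R' := by simpa using hR' 0 hK.pol.zero_mem
  obtain ⟨R, hR⟩ := hK.comp.isBounded.exists_norm_le
  have hR0 : 0 ≤ R := by simpa using hR 0 hK.zero_mem
  have habs : Absorbent ℝ K := absorbent_nhds_zero hK.nhds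
  set g := gauge K x with hg
  have hgn : 0 ≤ g := gauge_nonneg x
  rcases hgn.eq_or_lt with h0 | h0
  · rw [← h0]; exact gauge_nonneg _
  set z := g⁻¹ • x with hz
  have hzK : z ∈ K := by
    have h1 : gauge K z ≤ 1 := by
      rw [hz, gauge_smul_of_nonneg (inv_nonneg.2 hgn), smul_eq_mul, ← hg,
        inv_mul_cancel₀ h0.ne']
    have := (gauge_le_one_iff_mem_closure hK.conv hK.nhds).1 h1
    rwa [hK.comp.isClosed.closure_eq] at this
  have hxz : x = g • z := by rw [hz, smul_smul, mul_inv_cancel₀ h0.ne', one_smul]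
  have key : ∀ r : ℝ, 0 < r → g ≤ gauge K (x + (l * ⟪x, q.2⟫) • q.1) +
      l * (2 * (R * R') * r) * g := by
    intro r hr
    set m := (ν (ball q r)).toReal with hm
    have hm0 : 0 < m := ENNReal.toReal_pos (hq.2.2 r hr) (measure_ne_top _ _)
    have h1 := h.shift_mem hK hq hR0 hR0' hR hR' hr hzK hm
    have h2 : gauge K (x - (m * ⟪x, q.2⟫) • q.1) ≤ g * (1 + m * (2 * (R * R') * r)) := by
      have e1 : ⟪x, q.2⟫ = g * ⟪z, q.2⟫ := by
        have e2 : ⟪z, q.2⟫ = g⁻¹ * ⟪x, q.2⟫ := by rw [hz, inner_smul_left]; simp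
        rw [e2, mul_inv_cancel_left₀ h0.ne']
      have h3 : x - (m * ⟪x, q.2⟫) • q.1 = g • (z - (m * ⟪z, q.2⟫) • q.1) := by
        rw [smul_sub, ← hxz, smul_smul, e1]
        congr 2
        ring
      rw [h3, gauge_smul_of_nonneg hgn, smul_eq_mul]
      gcongr
    have h4 : (1 + l / m) • x = (x + (l * ⟪x, q.2⟫) • q.1) +
        (l / m) • (x - (m * ⟪x, q.2⟫) • q.1) := by
      rw [smul_sub, smul_smul, add_smul, one_smul]
      have : l / m * (m * ⟪x, q.2⟫) = l * ⟪x, q.2⟫ := by field_simp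
      rw [this]
      abel
    have h5 := gauge_add_le hK.conv habs (x + (l * ⟪x, q.2⟫) • q.1)
      ((l / m) • (x - (m * ⟪x, q.2⟫) • q.1))
    rw [← h4, gauge_smul_of_nonneg (by positivity), gauge_smul_of_nonneg (by positivity),
      smul_eq_mul, smul_eq_mul, ← hg] at h5
    have h6 : l / m * gauge K (x - (m * ⟪x, q.2⟫) • q.1) ≤
        l / m * (g * (1 + m * (2 * (R * R') * r))) := by gcongr
    have h7 : l / m * (g * (1 + m * (2 * (R * R') * r))) =
        l / m * g + l * (2 * (R * R') * r) * g := by field_simp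
    nlinarith
  have hlim : Tendsto (fun r : ℝ => gauge K (x + (l * ⟪x, q.2⟫) • q.1) +
      l * (2 * (R * R') * r) * g) (𝓝[>] 0) (𝓝 (gauge K (x + (l * ⟪x, q.2⟫) • q.1) +
      l * (2 * (R * R') * 0) * g)) := by
    apply Tendsto.mono_left _ nhdsWithin_le_nhds
    apply Continuous.tendsto
    fun_prop
  have h8 := ge_of_tendsto hlim (Filter.eventually_of_mem self_mem_nhdsWithin
    fun t ht => key t ht)
  simpa using h8

lemma mem_iff_gauge (hK : Body K) (x : E) : x ∈ K ↔ gauge K x ≤ 1 := by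
  rw [gauge_le_one_iff_mem_closure hK.conv hK.nhds, hK.comp.isClosed.closure_eq]

lemma Rep.tau_nonneg (h : Rep K ν) (hK : Body K) {q : E × E} (hq : q ∈ good ν) :
    0 ≤ ⟪q.1, q.2⟫ := by
  by_contra hneg
  push Not at hneg
  have h1 := h.accr hK hq q.1 (l := (-⟪q.1, q.2⟫)⁻¹) (inv_nonneg.2 (by linarith))
  have h2 : q.1 + ((-⟪q.1, q.2⟫)⁻¹ * ⟪q.1, q.2⟫) • q.1 = 0 := by
    have : (-⟪q.1, q.2⟫)⁻¹ * ⟪q.1, q.2⟫ = -1 := by
      rw [inv_neg, neg_mul, inv_mul_cancel₀ hneg.ne]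
    rw [this]; simp
  rw [h2, gauge_zero] at h1
  have hq0 : q.1 ≠ 0 := by
    rintro h0
    rw [h0, inner_zero_left] at hneg
    exact lt_irrefl _ hneg
  have h3 : 0 < gauge K q.1 :=
    (gauge_pos (absorbent_nhds_zero hK.nhds)
      (NormedSpace.isVonNBounded_of_isBounded ℝ hK.comp.isBounded)).2 hq0
  linarith

/-- The projection along a support pair is a contraction. -/
lemma Rep.proj_mem (h : Rep K ν) (hK : Body K) {q : E × E} (hq : q ∈ good ν)
    (hτ : 0 < ⟪q.1, q.2⟫) {y : E} (hy : y ∈ K) :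
    y - (⟪y, q.2⟫ / ⟪q.1, q.2⟫) • q.1 ∈ K := by
  set τ := ⟪q.1, q.2⟫ with hτ'
  have key : ∀ l : ℝ, 0 ≤ l → y - (l / (1 + l * τ) * ⟪y, q.2⟫) • q.1 ∈ K := by
    intro l hl
    have hpos : 0 < 1 + l * τ := by positivity
    set x := y - (l / (1 + l * τ) * ⟪y, q.2⟫) • q.1 with hx
    have h1 := h.accr hK hq x hl
    have h2 : ⟪x, q.2⟫ = ⟪y, q.2⟫ / (1 + l * τ) := by
      rw [hx, inner_sub_left, inner_smul_left, ← hτ']
      simp only [conj_trivial]
      field_simp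
      ring
    have h3 : x + (l * ⟪x, q.2⟫) • q.1 = y := by
      rw [h2, hx]
      have : l * (⟪y, q.2⟫ / (1 + l * τ)) = l / (1 + l * τ) * ⟪y, q.2⟫ := by ring
      rw [this]
      abel
    rw [h3] at h1
    rw [mem_iff_gauge hK]
    exact h1.trans ((mem_iff_gauge hK y).1 hy)
  have hlim : Tendsto (fun l : ℝ => y - (l / (1 + l * τ) * ⟪y, q.2⟫) • q.1) atTop
      (𝓝 (y - (τ⁻¹ * ⟪y, q.2⟫) • q.1)) := by
    have h4 : Tendsto (fun l : ℝ => l / (1 + l * τ)) atTop (𝓝 τ⁻¹) := by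
      have h5 : Tendsto (fun l : ℝ => (l⁻¹ + τ)⁻¹) atTop (𝓝 (0 + τ)⁻¹) :=
        (tendsto_inv_atTop_zero.add_const τ).inv₀ (by simpa using hτ.ne')
      rw [zero_add] at h5
      refine h5.congr' ?_
      filter_upwards [eventually_gt_atTop 0] with l hl
      field_simp
    exact ((h4.mul_const _).smul_const _).const_sub _
  have h6 := hK.comp.isClosed.mem_of_tendsto hlim
    (Filter.eventually_of_mem (Ioi_mem_atTop 0) fun l hl => key l (le_of_lt hl))
  have h7 : τ⁻¹ * ⟪y, q.2⟫ = ⟪y, q.2⟫ / τ := by ring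
  rwa [h7] at h6

end Pool.Agent.Helper66.MU
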