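import Pool.Agent.Helper66.MU.Rep

/-!
# The step for integral representations
-/

open MeasureTheory Set Metric Filter Topology
open scoped ENNReal NNReal Pointwise RealInnerProductSpace

set_option linter.unusedSectionVars false

namespace Pool.Agent.Helper66.MU

open Pool.Agent.Helper51.Univ

variable {E : Type*} [NormedAddCommGroup E] [InnerProductSpace ℝ E] [FiniteDimensional ℝ E]
  [MeasurableSpace E] [BorelSpace E] {K : Set E} {ν : Measure (E × E)}

lemma VP_nonneg (K : Set E) : 0 ≤ VP K := mul_nonneg ENNReal.toReal_nonneg ENNReal.toReal_nonneg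

/-- The recursive inequality for integral representations. -/
theorem Rep.step (h : Rep K ν) (hK : Body K) {M : ℝ} (hM0 : 0 ≤ M)
    (hM : ∀ q ∈ good ν, 0 < ⟪q.1, q.2⟫ → M ≤ VP (sec q.2 K)) :
    4 * ((Module.finrank ℝ E : ℝ) * M) ≤ (Module.finrank ℝ E : ℝ) ^ 2 * VP K := by
  have := h.fin
  set n := Module.finrank ℝ E with hn
  obtain ⟨R', hR'⟩ := hK.pol.comp.isBounded.exists_norm_le
  have hR0' : 0 ≤ R' := by simpa using hR' 0 hK.pol.zero_mem
  obtain ⟨R, hR⟩ := hK.comp.isBounded.exists_norm_le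
  have hR0 : 0 ≤ R := by simpa using hR 0 hK.zero_mem
  set V := (ν univ).toReal with hV
  have hV0 : 0 ≤ V := ENNReal.toReal_nonneg
  set L := 2 * (R * R') + 2 with hL
  have hL0 : 0 ≤ L := by positivity
  have hbd := hR
  have key : ∀ r : ℝ, 0 < r →
      4 * ((n - L * (2 * r) * V) * M) ≤ (n : ℝ) ^ 2 * VP K * (1 + L * (2 * r) * V) := by
    intro r hr
    set κ := L * (2 * r) with hκ
    have hκ0 : 0 ≤ κ := by positivity
    have hC : IsCompact (closedBall (0 : E × E) 1) := isCompact_closedBall _ _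
    obtain ⟨t, -, htfin, ht⟩ := hC.finite_cover_balls hr
    obtain ⟨ι, hι, c, p, hc, hp, hF⟩ := disc ν (good ν) h.ae_good r htfin.toFinset
      (closedBall (0 : E × E) 1) isClosed_closedBall.measurableSet (by simpa using ht)
    have hfull : ∀ F : E × E → ℝ, ∫ x in closedBall (0 : E × E) 1, F x ∂ν = ∫ x, F x ∂ν := by
      intro F
      have h1 : ν.restrict (closedBall (0 : E × E) 1) = ν := by
        refine Measure.restrict_eq_self_of_ae_mem ?_
        filter_upwards [h.unit] with q hq
        rw [mem_closedBall_zero_iff, Prod.norm_def, hq.1, hq.2, max_self]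
      rw [h1]
    have hνV : (ν (closedBall (0 : E × E) 1)).toReal ≤ V :=
      ENNReal.toReal_mono (measure_ne_top _ _) (measure_mono (subset_univ _))
    -- the trace
    have htr : (n : ℝ) - κ * V ≤ ∑ i, c i * ⟪(p i).1, (p i).2⟫ := by
      have h1 := hF (fun q => ⟪q.1, q.2⟫) κ ?_ hκ0 ?_
      · rw [hfull, h.trace, ← hn] at h1
        have h2 := (abs_le.1 h1).1
        have h3 : κ * (ν (closedBall (0 : E × E) 1)).toReal ≤ κ * V := by gcongr
        linarith
      · refine integrable_of_bdd h (by fun_prop) (M := 1) fun q h1 h2 => ?_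
        have := abs_real_inner_le_norm q.1 q.2
        rwa [h1, h2, one_mul] at this
      · intro a ha b hb hab
        have h1 : ⟪a.1, a.2⟫ - ⟪b.1, b.2⟫ = ⟪a.1, a.2 - b.2⟫ + ⟪a.1 - b.1, b.2⟫ := by
          rw [inner_sub_right, inner_sub_left]; ring
        rw [h1]
        have h2 := abs_real_inner_le_norm a.1 (a.2 - b.2)
        have h3 := abs_real_inner_le_norm (a.1 - b.1) b.2
        rw [ha.1, one_mul] at h2
        rw [hb.2.1, mul_one] at h3
        have h6 : ‖a.2 - b.2‖ ≤ dist a b := by
          rw [← dist_eq_norm]; exact (le_max_right _ _)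
        have h7 : ‖a.1 - b.1‖ ≤ dist a b := by
          rw [← dist_eq_norm]; exact (le_max_left _ _)
        have h8 : 2 * dist a b ≤ L * (2 * r) := by
          have : (2 : ℝ) ≤ L := by rw [hL]; nlinarith [mul_nonneg hR0 hR0']
          have hd : 0 ≤ dist a b := dist_nonneg
          nlinarith
        calc _ ≤ |⟪a.1, a.2 - b.2⟫| + |⟪a.1 - b.1, b.2⟫| := abs_add_le _ _
          _ ≤ L * (2 * r) := by linarith
    -- the unconditionality
    have hun : ∀ x ∈ K, ∀ y ∈ pol K, ∑ i, c i * |⟪x, (p i).2⟫ * ⟪(p i).1, y⟫| ≤ 1 + κ * V := by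
      intro x hx y hy
      have h1 := hF (fun q => |⟪x, q.2⟫ * ⟪q.1, y⟫|) κ ?_ hκ0 ?_
      · rw [hfull] at h1
        have h2 := (abs_le.1 h1).2
        have h3 : κ * (ν (closedBall (0 : E × E) 1)).toReal ≤ κ * V := by gcongr
        have h4 := h.unc x hx y hy
        linarith
      · exact integrable_of_bdd h (by fun_prop) fun q h1 h2 => by
          rw [abs_abs]; exact abs_prod_le x y q h1 h2
      · intro a ha b hb hab
        refine (abs_abs_sub_abs_le_abs_sub _ _).trans ?_
        refine (osc_prod x y a b ha.1 ha.2.1 hb.1 hb.2.1).trans ?_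
        have h5 := hR x hx
        have h6 := hR' y hy
        calc 2 * (‖x‖ * ‖y‖) * dist a b ≤ 2 * (R * R') * (2 * r) := by gcongr
          _ ≤ L * (2 * r) := by
            gcongr
            rw [hL]; linarith
    have hpos : 0 < 1 + κ * V := by positivity
    have hτ : ∀ i, 0 ≤ ⟪(p i).1, (p i).2⟫ := fun i => h.tau_nonneg hK (hp i)
    have h1 := MU.step hK (fun i => (c i / (1 + κ * V)) • (p i).1) (fun i => (p i).2)
      (fun i => by
        rw [inner_smul_left]
        exact mul_nonneg (by simpa using div_nonneg (hc i) hpos.le) (hτ i))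
      (fun s hs x hx => by
        rw [← hK.bipolar]
        intro y hy
        rw [inner_sum]
        calc ∑ i, ⟪y, (s i * ⟪x, (p i).2⟫) • (c i / (1 + κ * V)) • (p i).1⟫
            ≤ ∑ i, (c i * |⟪x, (p i).2⟫ * ⟪(p i).1, y⟫|) / (1 + κ * V) := by
              refine Finset.sum_le_sum fun i _ => ?_
              rw [inner_smul_right, inner_smul_right, real_inner_comm (p i).1 y]
              calc s i * ⟪x, (p i).2⟫ * (c i / (1 + κ * V) * ⟪(p i).1, y⟫)
                  = s i * (c i / (1 + κ * V) * (⟪x, (p i).2⟫ * ⟪(p i).1, y⟫)) := by ring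
                _ ≤ |s i * (c i / (1 + κ * V) * (⟪x, (p i).2⟫ * ⟪(p i).1, y⟫))| := le_abs_self _
                _ = |s i| * (c i / (1 + κ * V) * |⟪x, (p i).2⟫ * ⟪(p i).1, y⟫|) := by
                  rw [abs_mul, abs_mul, abs_of_nonneg (div_nonneg (hc i) hpos.le)]
                _ ≤ 1 * (c i / (1 + κ * V) * |⟪x, (p i).2⟫ * ⟪(p i).1, y⟫|) := by
                  have := hc i
                  gcongr
                  exact hs i
                _ = (c i * |⟪x, (p i).2⟫ * ⟪(p i).1, y⟫|) / (1 + κ * V) := by ring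
          _ = (∑ i, c i * |⟪x, (p i).2⟫ * ⟪(p i).1, y⟫|) / (1 + κ * V) := by
              rw [Finset.sum_div]
          _ ≤ 1 := by
              rw [div_le_one hpos]
              exact hun x hx y hy)
    rw [← hn] at h1
    have h2 : (∑ i, c i * ⟪(p i).1, (p i).2⟫) * M / (1 + κ * V) ≤
        ∑ i, ⟪(c i / (1 + κ * V)) • (p i).1, (p i).2⟫ * VP (sec (p i).2 K) := by
      rw [Finset.sum_mul, Finset.sum_div]
      refine Finset.sum_le_sum fun i _ => ?_
      rw [inner_smul_left]
      simp only [conj_trivial]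
      rcases (hτ i).eq_or_lt with h3 | h3
      · rw [← h3]; simp
      · have h4 := hM (p i) (hp i) h3
        have h5 := hc i
        calc c i * ⟪(p i).1, (p i).2⟫ * M / (1 + κ * V) =
            c i / (1 + κ * V) * ⟪(p i).1, (p i).2⟫ * M := by ring
          _ ≤ _ := by gcongr
    have h3 : (n - κ * V) * M ≤ (∑ i, c i * ⟪(p i).1, (p i).2⟫) * M :=
      mul_le_mul_of_nonneg_right htr hM0
    have h4 : 4 * ((n - κ * V) * M / (1 + κ * V)) ≤ (n : ℝ) ^ 2 * VP K := by
      refine le_trans ?_ h1
      gcongr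
      refine le_trans ?_ h2
      gcongr
    have h5 : 4 * ((n - κ * V) * M) = 4 * ((n - κ * V) * M / (1 + κ * V)) * (1 + κ * V) := by
      field_simp
    rw [h5]
    gcongr
  have hlim1 : Tendsto (fun r : ℝ => 4 * (((n : ℝ) - L * (2 * r) * V) * M)) (𝓝[>] 0)
      (𝓝 (4 * (((n : ℝ) - L * (2 * 0) * V) * M))) := by
    apply Tendsto.mono_left _ nhdsWithin_le_nhds
    apply Continuous.tendsto
    fun_prop
  have hlim2 : Tendsto (fun r : ℝ => (n : ℝ) ^ 2 * VP K * (1 + L * (2 * r) * V)) (𝓝[>] 0)
      (𝓝 ((n : ℝ) ^ 2 * VP K * (1 + L * (2 * 0) * V))) := by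
    apply Tendsto.mono_left _ nhdsWithin_le_nhds
    apply Continuous.tendsto
    fun_prop
  have h8 := le_of_tendsto_of_tendsto hlim1 hlim2 (Filter.eventually_of_mem self_mem_nhdsWithin
    fun t ht => key t ht)
  simpa using h8

end Pool.Agent.Helper66.MU
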