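import Pool.Agent.Helper66.MU.Flux

/-!
# The recursive inequality
-/

open MeasureTheory Set Metric Filter Topology
open scoped ENNReal NNReal Pointwise RealInnerProductSpace

set_option linter.unusedSectionVars false

namespace Pool.Agent.Helper66.MU

open Pool.Agent.Helper51.Univ

variable {E : Type*} [NormedAddCommGroup E] [InnerProductSpace ℝ E] [FiniteDimensional ℝ E]
  [MeasurableSpace E] [BorelSpace E]

lemma vol_sec_congr (K : Set E) {V W : Submodule ℝ E} (h : V = W) :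
    (volume {y : V | (y : E) ∈ K}).toReal = (volume {y : W | (y : E) ∈ K}).toReal := by
  subst h; rfl

lemma vol_sec_smul (K : Set E) {c : ℝ} (hc : c ≠ 0) (q : E) :
    (volume (sec (c • q) K)).toReal = (volume (sec q K)).toReal :=
  vol_sec_congr K (Hy_smul hc q)

lemma sec_smul_set (K : Set E) {c : ℝ} (hc : c ≠ 0) (u : E) :
    sec u (c • K) = c • sec u K := by
  ext y
  simp only [sec, mem_ofPred_eq]
  rw [mem_smul_set_iff_inv_smul_mem₀ hc, mem_smul_set_iff_inv_smul_mem₀ hc]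
  rfl

lemma unit_normalize {q : E} (hq : q ≠ 0) : ‖(‖q‖⁻¹ • q)‖ = 1 := by
  rw [norm_smul, norm_inv, norm_norm, inv_mul_cancel₀ (norm_ne_zero_iff.2 hq)]

/-- Lower bound for the volume of a slab of the shrunk body. -/
lemma slab_low {K : Set E} (hK : Body K) {r : ℝ} (hr0 : 0 < r) (hr : closedBall 0 r ⊆ K)
    {q : E} (hq : q ≠ 0) {η δ : ℝ} (hη1 : η < 1) (hδ : 0 < δ)
    (hδr : δ < ‖q‖ * ((1 - η) * r)) :
    2 * (δ / ‖q‖) * ((1 - δ / ‖q‖ / ((1 - η) * r)) ^ (Module.finrank ℝ E - 1) *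
      ((1 - η) ^ (Module.finrank ℝ E - 1) * (volume (sec q K)).toReal)) ≤
      (volume (slab ((1 - η) • K) δ q)).toReal := by
  have hq0 : 0 < ‖q‖ := norm_pos_iff.2 hq
  have h1η : 0 < 1 - η := by linarith
  set u := ‖q‖⁻¹ • q with hu'
  have hu : ‖u‖ = 1 := unit_normalize hq
  have hfr := finrank_Hy hu
  have hfr' : Module.finrank ℝ (Hy u) = Module.finrank ℝ E - 1 := by omega
  have hK' : Body ((1 - η) • K) := by
    have := hK.image (ContinuousLinearEquiv.smulLeft (Units.mk0 (1 - η) h1η.ne') : E ≃L[ℝ] E)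
    exact this
  have hr' : closedBall 0 ((1 - η) * r) ⊆ (1 - η) • K := by
    intro x hx
    rw [mem_smul_set_iff_inv_smul_mem₀ h1η.ne']
    apply hr
    rw [mem_closedBall_zero_iff] at hx ⊢
    rw [norm_smul, norm_inv, Real.norm_eq_abs, abs_of_pos h1η, inv_mul_le_iff₀ h1η]
    exact hx
  have hε : 0 < δ / ‖q‖ := by positivity
  have hεr : δ / ‖q‖ < (1 - η) * r := by rwa [div_lt_iff₀' hq0]
  have h1 := slab_ge hu hK' hε hεr hr'
  have hs : slab ((1 - η) • K) (δ / ‖q‖) u = slab ((1 - η) • K) δ q := by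
    have := slab_smul ((1 - η) • K) (ε := δ) (inv_pos.2 hq0) q
    rw [← this, hu', div_eq_inv_mul]
  rw [hs, sec_smul_set K h1η.ne', Measure.addHaar_smul_of_nonneg _ h1η.le, hfr'] at h1
  have hfin2 : volume (slab ((1 - η) • K) δ q) ≠ ∞ :=
    ((measure_mono (fun x hx => hx.1)).trans_lt hK'.comp.measure_lt_top).ne
  have hfin1 : volume (sec u K) ≠ ∞ := (hK.sec u).comp.measure_lt_top.ne
  have hb : 0 ≤ 1 - δ / ‖q‖ / ((1 - η) * r) := by
    rw [sub_nonneg, div_le_one (by positivity)]; exact hεr.le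
  have h3 := ENNReal.toReal_mono hfin2 h1
  rw [ENNReal.toReal_mul, ENNReal.toReal_mul, ENNReal.toReal_mul,
    ENNReal.toReal_ofReal (by positivity), ENNReal.toReal_ofReal (by positivity),
    ENNReal.toReal_ofReal (by positivity)] at h3
  rw [hu', vol_sec_smul K (inv_ne_zero hq0.ne')] at h3
  exact h3

/-- The flux inequality. -/
theorem flux {ι : Type*} {K : Set E} (hK : Body K) (S : Finset ι) (w θ : ι → E) (c : ι → ℝ)
    (hc : ∀ i ∈ S, 0 ≤ c i) (hτ : ∀ i ∈ S, 0 ≤ ⟪w i, θ i⟫) (hθ : ∀ i ∈ S, θ i ≠ 0)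
    (hmem : ∀ s : ι → ℝ, (∀ i, |s i| ≤ 1) → ∑ i ∈ S, (s i * c i) • w i ∈ K) :
    ∑ i ∈ S, c i * ⟪w i, θ i⟫ * (2 / ‖θ i‖ * (volume (sec (θ i) K)).toReal) ≤
      Module.finrank ℝ E * (volume K).toReal := by
  obtain ⟨r, hr0, hr⟩ := nhds_basis_closedBall.mem_iff.1 hK.nhds
  set m := Module.finrank ℝ E - 1 with hm
  -- the function of the parameter
  set F : ℝ → ℝ := fun η => ∑ i ∈ S, c i * ⟪w i, θ i⟫ * (2 / ‖θ i‖ *
    ((1 - η / ‖θ i‖ / ((1 - η) * r)) ^ m * ((1 - η) ^ m * (volume (sec (θ i) K)).toReal))) with hF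
  have h1 : ∀ᶠ η : ℝ in 𝓝[>] 0, F η ≤ Module.finrank ℝ E * (volume K).toReal := by
    have h2 : ∀ i ∈ S, ∀ᶠ η : ℝ in 𝓝[>] 0, η < ‖θ i‖ * ((1 - η) * r) := by
      intro i hi
      have hpos : 0 < ‖θ i‖ := norm_pos_iff.2 (hθ i hi)
      apply nhdsWithin_le_nhds
      have hcont : Continuous fun η : ℝ => ‖θ i‖ * ((1 - η) * r) - η := by fun_prop
      have h3 := hcont.tendsto 0
      have h4 : ∀ᶠ η : ℝ in 𝓝 0, 0 < ‖θ i‖ * ((1 - η) * r) - η := by
        refine h3.eventually_const_lt ?_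
        simp only [sub_zero, one_mul]
        positivity
      filter_upwards [h4] with η hη
      linarith
    have h3 := (Finset.eventually_all S).2 h2
    filter_upwards [h3, Ioo_mem_nhdsGT (zero_lt_one (α := ℝ))] with η hη hη1
    refine le_trans ?_ (flux_slab hK S w θ c hc hτ hmem hη1.1 hη1.2 hη1.1)
    refine Finset.sum_le_sum fun i hi => ?_
    have h4 := slab_low hK hr0 hr (hθ i hi) hη1.2 hη1.1 (hη i hi)
    have hpos : 0 < ‖θ i‖ := norm_pos_iff.2 (hθ i hi)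
    have h5 : c i * ⟪w i, θ i⟫ * (2 / ‖θ i‖ *
      ((1 - η / ‖θ i‖ / ((1 - η) * r)) ^ m * ((1 - η) ^ m * (volume (sec (θ i) K)).toReal))) =
      c i * (⟪w i, θ i⟫ / η) * (2 * (η / ‖θ i‖) * ((1 - η / ‖θ i‖ / ((1 - η) * r)) ^ m *
      ((1 - η) ^ m * (volume (sec (θ i) K)).toReal))) := by
      have := hη1.1.ne'
      field_simp
    rw [h5]
    exact mul_le_mul_of_nonneg_left h4 (mul_nonneg (hc i hi) (div_nonneg (hτ i hi) hη1.1.le))
  have hlim : Tendsto F (𝓝[>] 0) (𝓝 (F 0)) := by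
    apply Tendsto.mono_left _ nhdsWithin_le_nhds
    apply ContinuousAt.tendsto
    rw [hF]
    apply tendsto_finsetSum
    intro i _
    have h6 : ContinuousAt (fun η : ℝ => η / ‖θ i‖ / ((1 - η) * r)) 0 := by
      refine ContinuousAt.div (by fun_prop) (by fun_prop) ?_
      simpa using hr0.ne'
    have h8 : ContinuousAt (fun η : ℝ => c i * ⟪w i, θ i⟫ * (2 / ‖θ i‖ *
        ((1 - η / ‖θ i‖ / ((1 - η) * r)) ^ m *
          ((1 - η) ^ m * (volume (sec (θ i) K)).toReal)))) 0 := by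
      fun_prop
    exact h8
  have h7 := le_of_tendsto hlim h1
  refine le_trans (le_of_eq ?_) h7
  rw [hF]
  simp

/-- The recursive inequality. -/
theorem step {ι : Type*} [Fintype ι] {K : Set E} (hK : Body K) (w θ : ι → E)
    (hτ : ∀ i, 0 ≤ ⟪w i, θ i⟫)
    (hmem : ∀ s : ι → ℝ, (∀ i, |s i| ≤ 1) → ∀ x ∈ K, ∑ i, (s i * ⟪x, θ i⟫) • w i ∈ K) :
    4 * ∑ i, ⟪w i, θ i⟫ * VP (sec (θ i) K) ≤ (Module.finrank ℝ E : ℝ) ^ 2 * VP K := by
  classical
  set n := Module.finrank ℝ E with hn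
  set S : Finset ι := Finset.univ.filter fun i => 0 < ⟪w i, θ i⟫ with hS
  have hmemS : ∀ i, i ∈ S ↔ 0 < ⟪w i, θ i⟫ := fun i => by simp [hS]
  have hθ : ∀ i ∈ S, θ i ≠ 0 := by
    intro i hi h0
    have := (hmemS i).1 hi
    rw [h0, inner_zero_right] at this
    exact lt_irrefl _ this
  have hKpos := vol_body_pos hK
  set V := (volume K).toReal with hV
  have hfl : ∀ x ∈ K, ∑ i ∈ S, |⟪x, θ i⟫| * ⟪w i, θ i⟫ *
      (2 / ‖θ i‖ * (volume (sec (θ i) K)).toReal) ≤ n * V := by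
    intro x hx
    refine flux hK S w θ (fun i => |⟪x, θ i⟫|) (fun i _ => abs_nonneg _) (fun i _ => hτ i) hθ ?_
    intro s hs
    have h1 := hmem (fun i => if i ∈ S then s i * SignType.sign ⟪x, θ i⟫ else 0) (fun i => by
      by_cases hi : i ∈ S
      · simp only [hi, if_true]
        rw [abs_mul]
        have h2 : |((SignType.sign ⟪x, θ i⟫ : SignType) : ℝ)| ≤ 1 := by
          rcases lt_trichotomy ⟪x, θ i⟫ 0 with h | h | h
          · simp [sign_neg h]
          · simp [h]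
          · simp [sign_pos h]
        calc |s i| * |((SignType.sign ⟪x, θ i⟫ : SignType) : ℝ)| ≤ 1 * 1 := by
              gcongr
              exact hs i
          _ = 1 := one_mul 1
      · simp [hi]) x hx
    have h3 : ∑ i, ((if i ∈ S then s i * SignType.sign ⟪x, θ i⟫ else 0) * ⟪x, θ i⟫) • w i =
        ∑ i ∈ S, (s i * |⟪x, θ i⟫|) • w i := by
      rw [← Finset.sum_filter_add_sum_filter_not Finset.univ (fun i => i ∈ S)]
      have h4 : ∑ i with i ∉ S, ((if i ∈ S then s i * SignType.sign ⟪x, θ i⟫ else 0) *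
          ⟪x, θ i⟫) • w i = 0 := by
        refine Finset.sum_eq_zero fun i hi => ?_
        have : i ∉ S := by simpa using hi
        simp [this]
      rw [h4, add_zero]
      have h5 : (Finset.univ.filter fun i => i ∈ S) = S := by ext; simp
      rw [h5]
      refine Finset.sum_congr rfl fun i hi => ?_
      rw [if_pos hi, mul_assoc, sign_mul_self]
    rw [h3] at h1
    exact h1
  rcases Nat.eq_zero_or_pos n with hn0 | hn0
  · -- dimension zero
    have : Subsingleton E := Module.finrank_zero_iff.1 hn0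
    have h0 : ∀ i, ⟪w i, θ i⟫ = 0 := fun i => by
      rw [Subsingleton.elim (w i) 0, inner_zero_left]
    simp [h0, hn0]
  have hn0' : (0 : ℝ) < n := by exact_mod_cast hn0
  set W : ι → ℝ := fun i => ⟪w i, θ i⟫ * (2 / ‖θ i‖ * (volume (sec (θ i) K)).toReal) / (n * V)
    with hW
  have hWnn : ∀ i ∈ S, 0 ≤ W i := by
    intro i hi
    have := hτ i
    rw [hW]
    positivity
  have h1 := finite_ineq hK θ W S hWnn hθ (fun x hx => by
    have h2 := hfl x hx
    have h3 : ∑ i ∈ S, W i * |⟪x, θ i⟫| = (∑ i ∈ S, |⟪x, θ i⟫| * ⟪w i, θ i⟫ *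
      (2 / ‖θ i‖ * (volume (sec (θ i) K)).toReal)) / (n * V) := by
      rw [Finset.sum_div]
      refine Finset.sum_congr rfl fun i _ => ?_
      rw [hW]; ring
    rw [h3, div_le_one (by positivity)]
    exact h2)
  have h2 : ∑ i ∈ S, 2 * W i * (‖θ i‖ * AS K (θ i)) =
      4 * (∑ i, ⟪w i, θ i⟫ * VP (sec (θ i) K)) / (n * V) := by
    have h3 : ∑ i, ⟪w i, θ i⟫ * VP (sec (θ i) K) = ∑ i ∈ S, ⟪w i, θ i⟫ * VP (sec (θ i) K) := by
      symm
      apply Finset.sum_subset (Finset.subset_univ _)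
      intro i _ hi
      rw [hmemS, not_lt] at hi
      rw [le_antisymm hi (hτ i), zero_mul]
    rw [h3, Finset.mul_sum, Finset.sum_div]
    refine Finset.sum_congr rfl fun i hi => ?_
    have hpos : 0 < ‖θ i‖ := norm_pos_iff.2 (hθ i hi)
    rw [hW, VP, AS]
    field_simp
    ring
  rw [h2, div_le_iff₀ (by positivity)] at h1
  rw [VP]
  calc 4 * ∑ i, ⟪w i, θ i⟫ * VP (sec (θ i) K) ≤ n * (volume (pol K)).toReal * (n * V) := h1
    _ = _ := by rw [← hV]; ring

end Pool.Agent.Helper66.MU
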